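import Pool.Agent.J6H68.Nut.Stm

/-!
# Insertion of four unlooped cells (module STEP)
-/

set_option autoImplicit false
set_option linter.unusedSectionVars false

namespace Pool.Agent.J6H34.Nut

open Finset Pool.Agent.TH296.Nut Pool.Agent.J6H28.Nut Pool.Agent.J6H68.Nut

variable {V : Type} [Fintype V] [DecidableEq V]

theorem row4_inl {R : Type} [CommRing R] (S : V → V → ℤ) (hs : ∀ i j, S i j = S j i) (e f : V)
    (hef : e ≠ f) (h1 : S e f = 1) (g : V ⊕ Fin 4 → R) (i : V) :
    ∑ q, ((ins4 S e f (.inl i) q : ℤ) : R) * g q = ∑ j, (S i j : R) * g (.inl j) +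
      (if i = e then g (.inr 0) - g (.inl f) else 0) +
      (if i = f then g (.inr 3) - g (.inl e) else 0) := by
  rw [Fintype.sum_sum_type, Fin.sum_univ_four]
  have h2 : ∀ j, ((ins4 S e f (.inl i) (.inl j) : ℤ) : R) * g (.inl j) =
      (S i j : R) * g (.inl j) + ((if j = f then (if i = e then - g (.inl f) else 0) else 0) +
        (if j = e then (if i = f then - g (.inl e) else 0) else 0)) := by
    intro j
    have h1' : S f e = 1 := by rw [hs]; exact h1
    simp only [ins4]
    by_cases i1 : i = e
    · subst i1
      simp only [hef, true_and, false_and, or_false, if_true, if_false]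
      by_cases j1 : j = f
      · subst j1
        simp [h1, hef.symm]
      · simp [j1]
    · by_cases i2 : i = f
      · subst i2
        simp only [i1, true_and, false_and, false_or, if_true, if_false]
        by_cases j1 : j = e
        · subst j1
          simp [h1']
        · simp [j1]
      · simp [i1, i2]
  rw [Finset.sum_congr rfl fun j _ => h2 j, Finset.sum_add_distrib, Finset.sum_add_distrib]
  simp only [Finset.sum_ite_eq', Finset.mem_univ, if_true, ins4]
  by_cases i1 : i = e
  · subst i1
    simp [hef]
    ring
  · by_cases i2 : i = f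
    · subst i2
      simp [i1]
      ring
    · simp [i1, i2]

theorem row4_inr0 {R : Type} [CommRing R] (S : V → V → ℤ) (e f : V) (g : V ⊕ Fin 4 → R) :
    ∑ q, ((ins4 S e f (.inr 0) q : ℤ) : R) * g q = g (.inl e) + g (.inr 1) := by
  rw [Fintype.sum_sum_type, Fin.sum_univ_four]
  simp [ins4]

theorem row4_inr1 {R : Type} [CommRing R] (S : V → V → ℤ) (e f : V) (g : V ⊕ Fin 4 → R) :
    ∑ q, ((ins4 S e f (.inr 1) q : ℤ) : R) * g q = g (.inr 0) + g (.inr 2) := by
  rw [Fintype.sum_sum_type, Fin.sum_univ_four]
  simp [ins4]

theorem row4_inr2 {R : Type} [CommRing R] (S : V → V → ℤ) (e f : V) (g : V ⊕ Fin 4 → R) :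
    ∑ q, ((ins4 S e f (.inr 2) q : ℤ) : R) * g q = g (.inr 1) + g (.inr 3) := by
  rw [Fintype.sum_sum_type, Fin.sum_univ_four]
  simp [ins4]

theorem row4_inr3 {R : Type} [CommRing R] (S : V → V → ℤ) (e f : V) (g : V ⊕ Fin 4 → R) :
    ∑ q, ((ins4 S e f (.inr 3) q : ℤ) : R) * g q = g (.inl f) + g (.inr 2) := by
  rw [Fintype.sum_sum_type, Fin.sum_univ_four]
  simp [ins4]

theorem ins4_symm (S : V → V → ℤ) (hs : ∀ i j, S i j = S j i) (e f : V) (q r : V ⊕ Fin 4) :
    ins4 S e f q r = ins4 S e f r q := by
  rcases q with i | s <;> rcases r with j | t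
  · simp only [ins4]
    rw [hs i j]
    by_cases h : (i = e ∧ j = f) ∨ (i = f ∧ j = e)
    · rw [if_pos h, if_pos (by tauto)]
    · rw [if_neg h, if_neg (by tauto)]
  · simp only [ins4]
  · simp only [ins4]
  · fin_cases s <;> fin_cases t <;> simp [ins4]

theorem insE_symm (S : V → V → ℤ) (hs : ∀ i j, S i j = S j i) (e f : V) (q r : V ⊕ Fin 4) :
    insE S e f q r = insE S e f r q := by
  rcases q with i | s <;> rcases r with j | t
  · simp only [insE]
    rw [hs i j]
    by_cases h : (i = e ∧ j = f) ∨ (i = f ∧ j = e)
    · rw [if_pos h, if_pos (by tauto)]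
    · rw [if_neg h, if_neg (by tauto)]
  · simp only [insE]
  · simp only [insE]
  · fin_cases s <;> fin_cases t <;> simp [insE]

theorem ins4_val (S : V → V → ℤ) (hv : ∀ i j, S i j = 0 ∨ S i j = 1 ∨ S i j = -1) (e f : V)
    (q r : V ⊕ Fin 4) :
    ins4 S e f q r = 0 ∨ ins4 S e f q r = 1 ∨ ins4 S e f q r = -1 := by
  rcases q with i | s <;> rcases r with j | t <;> simp only [ins4]
  · split_ifs
    · simp
    · exact hv i j
  · split_ifs <;> simp
  · split_ifs <;> simp
  · split_ifs <;> simp

theorem insE_val (E : V → V → ℤ) (hv : ∀ i j, E i j = 0 ∨ E i j = 1) (e f : V)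
    (q r : V ⊕ Fin 4) :
    insE E e f q r = 0 ∨ insE E e f q r = 1 := by
  rcases q with i | s <;> rcases r with j | t <;> simp only [insE]
  · split_ifs
    · simp
    · exact hv i j
  · split_ifs <;> simp
  · split_ifs <;> simp
  · split_ifs <;> simp

/-- the sums of the rows of `2 E - S ^ 2` for the old cells -/
theorem row4_sq (S E : V → V → ℤ) (hs : ∀ i j, S i j = S j i) (hE : ∀ i j, E i j = E j i)
    (e f : V) (hef : e ≠ f) (h1 : S e f = 1) (h2 : E e f = 1) (i : V) :
    ∑ q, (2 * insE E e f (.inl i) q - ins4 S e f (.inl i) q ^ 2) =
      ∑ j, (2 * E i j - S i j ^ 2) := by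
  rw [Fintype.sum_sum_type, Fin.sum_univ_four]
  have h3 : ∀ j, 2 * insE E e f (.inl i) (.inl j) - (ins4 S e f (.inl i) (.inl j)) ^ 2 =
      (2 * E i j - S i j ^ 2) + ((if j = f then (if i = e then -1 else 0) else 0) +
        (if j = e then (if i = f then -1 else 0) else 0)) := by
    intro j
    have h1' : S f e = 1 := by rw [hs]; exact h1
    have h2' : E f e = 1 := by rw [hE]; exact h2
    simp only [ins4, insE]
    by_cases i1 : i = e
    · subst i1
      simp only [hef, true_and, false_and, or_false, if_true, if_false]
      by_cases j1 : j = f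
      · subst j1
        simp [h1, h2, hef.symm]
      · simp [j1]
    · by_cases i2 : i = f
      · subst i2
        simp only [i1, true_and, false_and, false_or, if_true, if_false]
        by_cases j1 : j = e
        · subst j1
          simp [h1', h2']
        · simp [j1]
      · simp [i1, i2]
  rw [Finset.sum_congr rfl fun j _ => h3 j, Finset.sum_add_distrib, Finset.sum_add_distrib]
  simp only [Finset.sum_ite_eq', Finset.mem_univ, if_true, ins4, insE]
  by_cases i1 : i = e
  · subst i1
    simp [hef]
  · by_cases i2 : i = f
    · subst i2
      simp [i1]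
    · simp [i1, i2]

theorem row4_new (S E : V → V → ℤ) (e f : V) (t : Fin 4) :
    ∑ q, (2 * insE E e f (.inr t) q - ins4 S e f (.inr t) q ^ 2) = 4 := by
  rw [Fintype.sum_sum_type, Fin.sum_univ_four]
  have h : ∀ i : V, 2 * insE E e f (.inr t) (.inl i) - ins4 S e f (.inr t) (.inl i) ^ 2 =
      (if i = e then (if t = 0 then 1 else 0) else 0) +
        (if i = f then (if t = 3 then 1 else 0) else 0) := by
    intro i
    simp only [ins4, insE]
    fin_cases t
    · by_cases i1 : i = e <;> simp [i1]
    · simp
    · simp
    · by_cases i1 : i = f <;> simp [i1]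
  rw [Finset.sum_congr rfl fun i _ => h i, Finset.sum_add_distrib]
  simp only [Finset.sum_ite_eq', Finset.mem_univ, if_true]
  fin_cases t <;> simp [ins4, insE]

theorem rel_npos4 {m p lo hi : ℕ} {pos : V → ℕ} {i j : V} (h : rel m p lo hi (pos i) (pos j)) :
    rel (m + 4) p lo hi (npos4 p pos (.inl i)) (npos4 p pos (.inl j)) := by
  unfold rel at *
  simp only [npos4]
  split_ifs <;> omega

/-- Module STEP. -/
theorem st_Step : StStep := by
  intro T m p V _ _ S E pos a e f g h H
  have hef : e ≠ f := by
    intro he
    have h1 := H.pe
    have h2 := H.pf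
    rw [he] at h1
    omega
  have hpe := H.pe
  have hpf := H.pf
  have hE1 : E e f = 1 := H.se e f (by rw [H.Sef]; exact one_ne_zero)
  have hgh : ins4 S e f (.inl g) (.inl h) = S g h := by
    simp only [ins4]
    rw [if_neg H.gef]
  refine ⟨?_, ?_, ?_, ins4_val S H.val e f, ins4_symm S H.symm e f, ?_, insE_val E H.ev e f,
    insE_symm E H.esymm e f, ?_, ?_, ?_, ?_, ?_, ?_, ?_, ?_, ?_, ?_, ?_, ?_, ?_, ?_⟩
  · rw [Fintype.card_sum, H.card, Fintype.card_fin]
  · intro q r hqr
    rcases q with i | s <;> rcases r with j | t <;> simp only [npos4] at hqr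
    · congr 1
      apply H.inj
      split_ifs at hqr <;> omega
    · exfalso
      have := t.2
      split_ifs at hqr <;> omega
    · exfalso
      have := s.2
      split_ifs at hqr <;> omega
    · congr 1
      ext
      omega
  · intro q
    rcases q with i | t <;> simp only [npos4]
    · have := H.lt i
      split_ifs <;> omega
    · have h1 := t.2
      have h3 := H.lt f
      omega
  · intro q
    rcases q with i | t <;> simp only [ins4]
    · split_ifs
      · norm_num
      · exact H.diag i
    · rw [if_neg (by omega)]
      norm_num
  · intro q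
    rcases q with i | t <;> simp only [insE]
    · rw [if_neg, H.ediag i]
      rintro (⟨h1, h2⟩ | ⟨h1, h2⟩)
      · exact hef (h1.symm.trans h2)
      · exact hef (h2.symm.trans h1)
    · simp
  · intro q r hqr
    rcases q with i | s <;> rcases r with j | t <;> simp only [ins4, insE] at hqr ⊢
    · split_ifs at hqr with h1
      · exact absurd rfl hqr
      · rw [if_neg h1]
        exact H.se i j hqr
    · split_ifs at hqr with h1
      · rw [if_pos h1]
      · exact absurd rfl hqr
    · split_ifs at hqr with h1
      · rw [if_pos h1]
      · exact absurd rfl hqr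
    · split_ifs at hqr with h1
      · rw [if_pos (Or.inr h1)]
      · exact absurd rfl hqr
  · intro q
    rcases q with i | t
    · rw [row4_sq S E H.symm H.esymm e f hef H.Sef hE1, H.row i]
      have e1 : (npos4 p pos (.inl i) = 0) ↔ (pos i = 0) := by
        simp only [npos4]
        split_ifs with h5
        · rfl
        · constructor
          · intro h6
            exact absurd h6 not_false
          · intro h6
            omega
      simp only [e1]
    · rw [if_neg (by simp only [npos4]; omega), row4_new]
  · intro q r hqr
    rcases q with i | s <;> rcases r with j | t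
    · left
      simp only [insE] at hqr
      split_ifs at hqr with h1
      · exact absurd rfl hqr
      · rcases H.band i j hqr with h3 | h3
        · exact rel_npos4 h3
        · exact absurd h3 h1
    · simp only [insE] at hqr
      split_ifs at hqr with h1
      · rcases h1 with h1 | h3
        · right; left
          exact ⟨by rw [h1.1], by rw [h1.2]⟩
        · left
          rw [h3.1, h3.2]
          unfold rel
          simp only [npos4, hpf]
          rw [if_neg (by omega)]
          left
          constructor
          · constructor <;> intro h4 <;> omega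
          · right
            simp
      · exact absurd rfl hqr
    · simp only [insE] at hqr
      split_ifs at hqr with h1
      · rcases h1 with h1 | h3
        · right; right
          exact ⟨by rw [h1.2], by rw [h1.1]⟩
        · left
          rw [h3.1, h3.2]
          unfold rel
          simp only [npos4, hpf]
          rw [if_neg (by omega)]
          left
          constructor
          · constructor <;> intro h4 <;> omega
          · left
            simp
      · exact absurd rfl hqr
    · left
      simp only [insE] at hqr
      split_ifs at hqr with h0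
      · unfold rel
        simp only [npos4]
        left
        have h1 := s.2
        have h3 := t.2
        constructor
        · constructor <;> intro h4 <;> omega
        · rcases h0 with h0 | h0 | h0
          · rw [h0]
            left
            omega
          · omega
          · omega
      · exact absurd rfl hqr
  · simp only [npos4]
    rw [if_pos (by omega)]
    exact hpe
  · simp [npos4]
  · simp [ins4]
  · intro q
    rcases q with i | t
    · exact H.anz i
    · fin_cases t
      · simp [ext4, H.anz f]
      · simp [ext4, H.anz e]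
      · simp [ext4, H.anz f]
      · simp [ext4, H.anz e]
  · intro q
    rcases q with i | t
    · have := row4_inl (R := ℤ) S H.symm e f hef H.Sef
        (ext4 a (a f) (-a e) (-a f) (a e)) i
      simp only [Int.cast_id] at this
      rw [this]
      have h0 := H.hSa i
      simp only [ext4]
      rw [h0]
      simp
    · fin_cases t
      · have := row4_inr0 (R := ℤ) S e f (ext4 a (a f) (-a e) (-a f) (a e))
        simp only [Int.cast_id] at this
        simp only [Fin.zero_eta, Fin.isValue]
        rw [this]
        simp [ext4]
      · have := row4_inr1 (R := ℤ) S e f (ext4 a (a f) (-a e) (-a f) (a e))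
        simp only [Int.cast_id] at this
        simp only [Fin.mk_one, Fin.isValue]
        rw [this]
        simp [ext4]
      · have := row4_inr2 (R := ℤ) S e f (ext4 a (a f) (-a e) (-a f) (a e))
        simp only [Int.cast_id] at this
        simp only [Fin.reduceFinMk, Fin.isValue]
        rw [this]
        simp [ext4]
      · have := row4_inr3 (R := ℤ) S e f (ext4 a (a f) (-a e) (-a f) (a e))
        simp only [Int.cast_id] at this
        simp only [Fin.reduceFinMk, Fin.isValue]
        rw [this]
        simp [ext4]
  · intro d hd
    have r0 := hd (.inr 0)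
    have r1 := hd (.inr 1)
    have r2 := hd (.inr 2)
    have r3 := hd (.inr 3)
    rw [row4_inr0] at r0
    rw [row4_inr1] at r1
    rw [row4_inr2] at r2
    rw [row4_inr3] at r3
    have q1 : d (.inr 1) = -d (.inl e) := by linarith
    have q2 : d (.inr 2) = -d (.inl f) := by linarith
    have q0 : d (.inr 0) = d (.inl f) := by linarith
    have q3 : d (.inr 3) = d (.inl e) := by linarith
    have k1 : ∀ i, ∑ j, (S i j : ℝ) * d (.inl j) = 0 := by
      intro i
      have := hd (.inl i)
      rw [row4_inl S H.symm e f hef H.Sef, q0, q3] at this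
      simpa using this
    obtain ⟨c, hc⟩ := H.line (fun j => d (.inl j)) k1
    refine ⟨c, fun q => ?_⟩
    have he := hc e
    have hf := hc f
    rcases q with i | t
    · exact hc i
    · fin_cases t
      · simp [q0, hf, ext4]
      · simp [q1, he, ext4]
      · simp [q2, hf, ext4]
      · simp [q3, he, ext4]
  · rw [hgh]
    exact H.gS
  · simpa using H.gh
  · rw [hgh]
    exact H.ga
  · rintro (⟨-, h2⟩ | ⟨h1, -⟩)
    · exact absurd h2 (by simp)
    · exact absurd h1 (by simp)

end Pool.Agent.J6H34.Nut
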